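import Pool.Agent.helper7.EP.SpecA

/-!
# Project tpc: (MP_ebc808_nt), part A of the theorem P2

For every class `a` modulo `2^i` and every periodic function `r` with values in `{0, 1}` which is not `0` on the whole class:
`#{n ≤ X : n = a mod 2^i, p(n) ≠ r(n) mod 2} ≥ c X^(3/4)/(log X)^2`.

Idea. `B = 2^s`. For a squarefree `k` prime to `6` with at least `B` prime factors `≠ 1 mod 24` the series `f_k` with
coefficients `JG ac k` is a combination of the `ww^j`, `j > B`: every Hecke operator `T_l`, `l ≠ 1 mod 24`, raises all exponents. So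
`f_k * vvx^B` is in `WW`, and if `k ≠ B mod 3` this gives the identity
`∑_u T_k(M - B u^2) = ∑_u T_(k - B u^2)(M)` (`u` prime to `6`). With `k = Q p` (`Q` fixed, `p` prime) and `M` prime, in suitable classes,
all the numbers `k (M - B u^2)` and `(k - B u^2) M` are `24 n - 1` with `n = a mod 2^i`, and the values `r(n)` are periodic functions
`g(u)`, `h(u)`. If `p(n) = r(n)` for all of them then `∑_{B u^2 < M} g(u) = ∑_{B u^2 < k} h(u)`. The left side, as a function of the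
prime `M`, takes both values on a positive proportion of the primes (primes in almost all intervals of length `√M`).
Page: /team-store/TT_ebc808_P2A_helper67.md.

RULES. File `Pool/Agent/<seat>/TPC/XX.lean`, `import Pool.Agent.helper67.TPC.Spec` (or `SpecW`), `namespace Pool.Agent.TPC`,
`open Pool.Agent.EP`, auxiliary lemmas prefixed `XX_`. The theorems of the projects ep, od, fj are PROVED:
`import Pool.Agent.helper7.EP.AllA` gives `Pool.Agent.EP.all_JW`, `JN`, `all_NEG`, `WM`, `FRO`, `VTH` etc.,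
`import Pool.Agent.helper59.OD.V1` gives `Pool.Agent.OD.V1 : OD.V1_stmt` (the coefficients of `vvx`). They may be used directly or as hypotheses.
-/

set_option autoImplicit false

open Finset PowerSeries

noncomputable section

namespace Pool.Agent.TPC

open Pool.Agent.EP

/-! ### Definitions -/

/-- The number of `n ≤ X`, `n = a mod 2^i`, with `p(n) ≠ r(n)` modulo 2. -/
def sD (i a : ℕ) (r : ℕ → ZMod 2) (X : ℕ) : ℕ :=
  #{n ∈ range (X + 1) | n % 2 ^ i = a % 2 ^ i ∧ pp n ≠ r n}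

/-- The span of the powers `ww^j`, `j ≥ b`, `j = c mod 24`. -/
def WC (b c : ℕ) : Submodule (ZMod 2) KK :=
  Submodule.span (ZMod 2) {f | ∃ j : ℕ, b ≤ j ∧ j % 24 = c % 24 ∧ f = ww ^ j}

/-- The numbers `u` prime to `6` with `2^s u^2 ≤ N`. -/
def uB (s N : ℕ) : Finset ℕ := {u ∈ range (N + 1) | u.Coprime 6 ∧ 2 ^ s * u ^ 2 ≤ N}

/-- The primes of `(y, 2y]` in the class `c` modulo `m`. -/
def Pq (m c y : ℕ) : Finset ℕ := {p ∈ Ioc y (2 * y) | p.Prime ∧ p % m = c % m}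

/-- The periodic function `r` at an integer. -/
def rz (r : ℕ → ZMod 2) (t : ℕ) (z : ℤ) : ZMod 2 := r (z % t).toNat

/-- Exceptional pairs. -/
def Exc (s Q M p : ℕ) : Prop :=
  (∃ u : ℕ, M + Q * p = 2 ^ s * u ^ 2) ∨ (∃ u : ℕ, 2 ^ s * u ^ 2 < M ∧ p ∣ M - 2 ^ s * u ^ 2) ∨
  ∃ u : ℕ, 2 ^ s * u ^ 2 < Q * p ∧ M ∣ Q * p - 2 ^ s * u ^ 2

/-- The relation between a pair `(M, p)` and a number `n` it leads to. -/
def Rel (s Q M p n : ℕ) : Prop :=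
  (∃ u : ℕ, 2 ^ s * u ^ 2 < M ∧ 24 * n = Q * p * (M - 2 ^ s * u ^ 2) + 1) ∨
  ∃ u : ℕ, 2 ^ s * u ^ 2 < Q * p ∧ 24 * n = (Q * p - 2 ^ s * u ^ 2) * M + 1

/-- The data: `B = 2^s`, `k = Q p`; the primes `M` are `μ mod m`, the primes `p` are `κ mod m`. -/
structure Dat (i a : ℕ) (r : ℕ → ZMod 2) (s Q m μ κ D : ℕ) (g h : ℕ → ZMod 2) : Prop where
  s4 : 4 ≤ s
  Q1 : 1 ≤ Q
  m0 : 0 < m
  m6 : 6 ∣ m
  Qm : Q ∣ m
  Q6 : Q.Coprime 6
  μm : μ.Coprime m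
  κm : κ.Coprime m
  D0 : 0 < D
  /-- the filtration of `f_k` -/
  fil : ∀ p : ℕ, p.Prime → 5 ≤ p → ¬ p ∣ Q →
    ∃ f ∈ WC (2 ^ s + 1) (Q * p), ∀ M : ℤ, f.coeff M = JG ac (Q * p) M
  k3 : ∀ p : ℕ, p % m = κ % m → (Q * p + 2 ^ (s + 1)) % 3 ≠ 0
  cop : ∀ M u : ℕ, M % m = μ % m → 2 ^ s * u ^ 2 < M → Q.Coprime (M - 2 ^ s * u ^ 2)
  lft : ∀ M p u : ℕ, M % m = μ % m → p % m = κ % m → u.Coprime 6 → 2 ^ s * u ^ 2 < M →
    ∃ n : ℕ, 24 * n = Q * p * (M - 2 ^ s * u ^ 2) + 1 ∧ n % 2 ^ i = a % 2 ^ i ∧ r n = g u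
  rgt : ∀ M p u : ℕ, M % m = μ % m → p % m = κ % m → u.Coprime 6 → 2 ^ s * u ^ 2 < Q * p →
    ∃ n : ℕ, 24 * n = (Q * p - 2 ^ s * u ^ 2) * M + 1 ∧ n % 2 ^ i = a % 2 ^ i ∧ r n = h u
  gD : ∀ u : ℕ, g (u + D) = g u
  g0 : ∀ u : ℕ, ¬ u.Coprime 6 → g u = 0
  g1 : ∃ u : ℕ, g u = 1

/-- The arithmetic part of the data: `B = 2^s`, `T` odd and divisible by `3`, `N₀` prime to `6`, `S` a set of primes with product `Q`. -/
structure Cls (s T N₀ : ℕ) (S : Finset ℕ) (μ κ x₀ : ℕ) : Prop where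
  Sp : ∀ l ∈ S, l.Prime ∧ 5 ≤ l ∧ l % 24 ≠ 1 ∧ ¬ l ∣ T
  card : 2 ^ s ≤ #S
  μm : μ.Coprime (2 ^ s * T * ∏ l ∈ S, l)
  κm : κ.Coprime (2 ^ s * T * ∏ l ∈ S, l)
  x6 : x₀.Coprime 6
  k2 : (∏ l ∈ S, l) * κ ≡ 1 [MOD 2 ^ s]
  kT : (∏ l ∈ S, l) * κ ≡ 2 * 2 ^ s [MOD T]
  M2 : μ ≡ N₀ [MOD 2 ^ s]
  MT : (∏ l ∈ S, l) * κ * μ ≡ N₀ + (∏ l ∈ S, l) * κ * (2 ^ s * x₀ ^ 2) [MOD T]
  Ml : ∀ l ∈ S, ∀ x : ℕ, ¬ μ ≡ 2 ^ s * x ^ 2 [MOD l]

/-! ### The series -/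

/-- **TWD** (medium: copy of Pool/Agent/helper49/EP/TW1.lean with more information, uses `HM`, `INT4`, `CM2`, `WM`). For a prime `l ≥ 5` and
`m ≥ 1` the image of `ww^m` under `T_l` is a combination of the `ww^j` with `j ≥ m` and `j = l m mod 24`.
Proof. The proof of TW1 gives `G = ∑ β_i ww^(l m - 3 i)`, `3 i ≤ m (l - 1)`, so all exponents `j = l m - 3 i` are `≥ m` (TW1 only records `j ≥ 1`).
So `G` is in the span of the `ww^j`, `j ≥ m`, and `IsT l (ww^m) G`. By WM `ww^j` has coefficients only at the exponents `N` with `24 ∣ N + j`.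
The coefficient of `G` at `N` is by IsT zero unless `24 ∣ l N + m` or `24 ∣ N/l + m`, and both give `24 ∣ N + l m` (`l^2 = 1 mod 24`). Write
`G = G' + G''` where `G'` collects the `j = l m mod 24` and `G''` the others (by span induction: every element of the span of the
`ww^j`, `j ≥ m`, is a sum of an element of `WC m (l m)` and an element of the span of the other `ww^j`). At exponents `N = - l m mod 24` the
coefficient of `G''` is `0`, at the others those of `G` and `G'` are `0`, so that of `G''` too. So `G'' = 0` and `G = G'`. -/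
def TWD_stmt : Prop := ∀ l m : ℕ, l.Prime → 5 ≤ l → 1 ≤ m → ∃ g ∈ WC m (l * m), IsT l (ww ^ m) g

/-- **KWD** (medium, 100 lines; uses TWD, `JREC`, `WM`). The filtration of the series `JG ac k`, `k` squarefree.
Proof. Induction on `S` (`Finset.induction_on`). Empty: `f = ww = ww^1`, `JG ac 1 M = ac M` is the coefficient of `ww` (as in the proof of JW, see
Pool/Agent/*/EP/JW.lean). Step: `S' = insert l S`, `f` for `S` with `b = 1 + #{..}`, `c = ∏ S` (prime to `6`). `T_l` is additive: by TWD and span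
induction there is `g` with `IsT l f g`; for `j ≥ b`, `j = c mod 24`, `T_l(ww^j)` is in the span of the `ww^j'` with `j' ≥ j`,
`j' = l j = l c mod 24`. If `l ≠ 1 mod 24` then `j' ≠ j` since `(l - 1) j` is not divisible by `24` (`j` is prime to `6`), so `j' ≥ j + 1`. So `g` is in
`WC (1 + #{..}) (l c)`. The coefficients: JREC with `l ∤ ∏ S`. -/
def KWD_stmt : Prop := ∀ S : Finset ℕ, (∀ l ∈ S, l.Prime ∧ 5 ≤ l) →
  ∃ f ∈ WC (1 + #{l ∈ S | l % 24 ≠ 1}) (∏ l ∈ S, l), ∀ M : ℤ, f.coeff M = JG ac (∏ l ∈ S, l) M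

/-- **VB** (short: copy of Pool/Agent/helper33/OD/V16.lean with `2^s` in place of `16`; uses `FRO`, `OD.V1`). The coefficients of
`f * vvx^(2^s)` if `f` has no term below `-k`. -/
def VB_stmt : Prop := ∀ (s k : ℕ) (f : KK), (∀ N : ℤ, N < -(k : ℤ) → f.coeff N = 0) → ∀ M : ℤ,
  (f * vvx ^ (2 ^ s)).coeff M = ∑ u ∈ uB s (M + k).toNat, f.coeff (M - 2 ^ s * (u : ℤ) ^ 2)

/-- **IDB** (medium, 100 lines: simpler than Pool/Agent/helper11/OD/ODR.lean; uses VB, `JW`, `JN`, `NEG`, `WM`). The identity.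
Proof. `f` as in the hypothesis is a combination of `ww^j`, `j > 2^s`, and `ww * vvx = 1` (WM), so `f * vvx^(2^s)` is in `WW` (span induction). For
`u ∈ uB s k` the number `k - 2^s u^2` is positive (`k` is odd, `s ≥ 1`), odd, and not divisible by `3` (`u^2 = 1 mod 3`, `k ≠ 2^s mod 3`, which is the third
hypothesis), so it is prime to `6`; let `f_u` be its element of `WW` (JW). `F = f * vvx^(2^s) + ∑_u f_u` is in `WW`. For `M < 0`: by VB (`f` has no term below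
`-k` by JN) the coefficient of the first part is a sum over `u ∈ uB s (M + k)` of `JG ac k (M - 2^s u^2)` with negative arguments; by JN the term is `1` iff
`M = -(k - 2^s u^2)`. The coefficient of the second part is the number of the `u ∈ uB s k` with `M = -(k - 2^s u^2)`. They agree (for `M < 0` with
`2^s u^2 = M + k` both index sets contain `u`; `u` is unique). So `F = 0` by NEG. -/
def IDB_stmt : Prop := ∀ s k : ℕ, 1 ≤ s → k.Coprime 6 → (k + 2 ^ (s + 1)) % 3 ≠ 0 →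
  (∃ f ∈ WC (2 ^ s + 1) k, ∀ M : ℤ, f.coeff M = JG ac k M) → ∀ M : ℤ,
  (∑ u ∈ uB s (M + k).toNat, JG ac k (M - 2 ^ s * (u : ℤ) ^ 2)) + (∑ u ∈ uB s k, JG ac (k - 2 ^ s * u ^ 2) M) = 0

/-! ### The classes -/

/-- **CL1** (medium, 150 lines; pure arithmetic). Existence of the classes.
Proof. `S`: `2^s` primes `l = 5 mod 24`, `l > T` (Dirichlet: `Nat.forall_exists_prime_gt_and_eq_mod` or `Nat.infinite_setOf_prime_and_eq_mod`).
`Q = ∏ S` is prime to `2^s T` and `2^s`, `T`, and the `l ∈ S` are pairwise coprime. `κ`: by CRT `Q κ = 1 mod 2^s`, `Q κ = 2 * 2^s mod T`, `κ = 1 mod Q`;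
it is prime to `2^s T Q` (`2 * 2^s` is prime to the odd `T`). `x₀` := the product of the primes `ℓ ≥ 5` with `ℓ ∣ T`, `ℓ ∤ N₀`; it is prime to `6`.
`μ`: by CRT `μ = N₀ mod 2^s`; modulo `T`: `μ = (Q κ)⁻¹ N₀ + 2^s x₀^2`; modulo each `l ∈ S`: `2^s μ` (equivalently, up to the square `4^s`,...) is not a square
times a unit: choose a non-residue `ν` modulo `l` (`ZMod l` has one, `l ≥ 5` odd) and `μ = 2^s ν mod l`; then `μ ≡ 2^s x^2` would give `ν` a square.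
`μ` is prime to `2` (`N₀` odd), to each `l ∈ S`, and to `T`: for a prime `ℓ ∣ T`: `ℓ = 3`: `Q κ = 2 * 2^s`, `N₀ = -1`, `x₀^2 = 1 mod 3`:
`μ = (2 * 2^s)⁻¹ (-1) + 2^s = -2 * 2^s + 2^s = -2^s mod 3` (an element of `ZMod 3` other than `0` is its own inverse), not `0`. `ℓ ≥ 5`, `ℓ ∤ N₀`: `ℓ ∣ x₀`, so `μ = (Qκ)⁻¹ N₀` is a unit
modulo `ℓ`. `ℓ ≥ 5`, `ℓ ∣ N₀`: `ℓ ∤ x₀`, `μ = 2^s x₀^2` is a unit modulo `ℓ`. -/
def CL1_stmt : Prop := ∀ s T N₀ : ℕ, 4 ≤ s → T % 2 = 1 → 3 ∣ T → N₀ % 24 = 23 →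
  ∃ (S : Finset ℕ) (μ κ x₀ : ℕ), Cls s T N₀ S μ κ x₀

/-- **LFR** (medium, 120 lines; pure arithmetic). The values on the two sides. `24 t = 2^e T`.
Proof. `N = Q p (M - 2^s u^2)`: modulo `2^s` it is `Q κ μ = N₀` (`2^s ∣ 2^s u^2`). Modulo `3` (`3 ∣ T`, MT, `u^2 = x₀^2 = 1 mod 3`) it is `N₀`. So `N = N₀ = -1 mod 24`
(`s ≥ 4`), `N + 1 = 24 n`, and `24 n = 24 n₀ mod 2^s` gives `n = n₀ mod 2^(s-3)`, `i ≤ s - 3`. The integer `N' = Q κ (μ - 2^s u^2)` is `N` modulo `2^s T Q`, hence modulo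
`24 t = 2^e T` (`e ≤ s`). So `(N' + 1)/24 = n mod t` and `r n = rz r t ((N'+1)/24)` by periodicity. Right side: `N = (Q p - 2^s u^2) M` is `Qκ μ = N₀` modulo `2^s`; modulo `3`:
`(2 * 2^s - 2^s) μ = 2^s μ`, while MT says `2 * 2^s μ = -1 + 2 * 4^s = 1`, so `2^s μ = 2 = -1`: `N = -1 mod 3`. The rest is the same with `N' = (Q κ - 2^s u^2) μ`. -/
def LFR_stmt : Prop := ∀ (i t e s T n₀ : ℕ) (r : ℕ → ZMod 2) (S : Finset ℕ) (μ κ x₀ : ℕ), 0 < t → (∀ n, r (n + t) = r n) →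
  24 * t = 2 ^ e * T → e ≤ s → i + 3 ≤ s → 4 ≤ s → T % 2 = 1 → 3 ∣ T → 1 ≤ n₀ → Cls s T (24 * n₀ - 1) S μ κ x₀ →
  (∀ M p u : ℕ, M % (2 ^ s * T * ∏ l ∈ S, l) = μ % (2 ^ s * T * ∏ l ∈ S, l) →
      p % (2 ^ s * T * ∏ l ∈ S, l) = κ % (2 ^ s * T * ∏ l ∈ S, l) → u.Coprime 6 → 2 ^ s * u ^ 2 < M →
    ∃ n : ℕ, 24 * n = (∏ l ∈ S, l) * p * (M - 2 ^ s * u ^ 2) + 1 ∧ n % 2 ^ i = n₀ % 2 ^ i ∧
      r n = rz r t ((((∏ l ∈ S, l : ℕ) : ℤ) * κ * ((μ : ℤ) - 2 ^ s * (u : ℤ) ^ 2) + 1) / 24)) ∧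
  (∀ M p u : ℕ, M % (2 ^ s * T * ∏ l ∈ S, l) = μ % (2 ^ s * T * ∏ l ∈ S, l) →
      p % (2 ^ s * T * ∏ l ∈ S, l) = κ % (2 ^ s * T * ∏ l ∈ S, l) → u.Coprime 6 → 2 ^ s * u ^ 2 < (∏ l ∈ S, l) * p →
    ∃ n : ℕ, 24 * n = ((∏ l ∈ S, l) * p - 2 ^ s * u ^ 2) * M + 1 ∧ n % 2 ^ i = n₀ % 2 ^ i ∧
      r n = rz r t (((((∏ l ∈ S, l : ℕ) : ℤ) * κ - 2 ^ s * (u : ℤ) ^ 2) * μ + 1) / 24))

/-- **GPR** (short, medium, 80 lines; pure arithmetic). The function `g` has the period `2 T` and the value `1` at `x₀`.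
Proof. `N'(u) = Q κ (μ - 2^s u^2)`. `N'(u + 2T) = N'(u)` modulo `2^s T`, hence modulo `24 t`, so `(N'(u+2T) + 1)/24 = (N'(u)+1)/24 mod t` if `24 ∣ N'(u) + 1`, which holds for `u` prime to `6`
(as in LFR: `N' = N₀` modulo `2^s` and modulo `3`). `u + 2T` is prime to `6` iff `u` is (`6 ∣ 2T`). `N'(x₀) = N₀` modulo `2^s` (M2, k2) and modulo `T` (MT), hence modulo
`24 t`, `N₀ + 1 = 24 n₀`, so `(N'(x₀)+1)/24 = n₀ mod t` and the value is `r n₀ = 1`. -/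
def GPR_stmt : Prop := ∀ (t e s T n₀ : ℕ) (r : ℕ → ZMod 2) (S : Finset ℕ) (μ κ x₀ : ℕ), 0 < t → (∀ n, r (n + t) = r n) →
  24 * t = 2 ^ e * T → e ≤ s → 4 ≤ s → T % 2 = 1 → 3 ∣ T → 1 ≤ n₀ → r n₀ = 1 → Cls s T (24 * n₀ - 1) S μ κ x₀ →
  (∀ u : ℕ, u.Coprime 6 →
    rz r t ((((∏ l ∈ S, l : ℕ) : ℤ) * κ * ((μ : ℤ) - 2 ^ s * ((u + 2 * T : ℕ) : ℤ) ^ 2) + 1) / 24) =
      rz r t ((((∏ l ∈ S, l : ℕ) : ℤ) * κ * ((μ : ℤ) - 2 ^ s * (u : ℤ) ^ 2) + 1) / 24)) ∧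
  rz r t ((((∏ l ∈ S, l : ℕ) : ℤ) * κ * ((μ : ℤ) - 2 ^ s * (x₀ : ℤ) ^ 2) + 1) / 24) = 1

/-- **DAT** (medium, 120 lines; from CL1, LFR, GPR, KWD). Existence of the data.
Proof. `n₀` with `n₀ ≥ 1`, `n₀ = a mod 2^i`, `r n₀ = 1` (replace the given `n` by `n + t 2^i`; `r (n + t k) = r n`). `24 t = 2^e T` with `T` odd (`Nat.exists_eq_two_pow_mul_odd`), `3 ∣ T`.
`s = e + i + 4`. CL1 with `N₀ = 24 n₀ - 1`. `Q = ∏ S`, `m = 2^s T Q`, `D = 2T`, `g u = ` the value in LFR for `u` prime to `6`, else `0`; `h u` the second value in LFR.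
`fil`: KWD for `insert p S` (`p ∉ S` since `p ∤ Q`); at least `#S ≥ 2^s` of its elements are not `1 mod 24`; `WC` is decreasing in the first argument. `k3`: `Q p = Q κ = 2 * 2^s mod 3` and
`2 * 2^s + 2 * 2^s = 2^s mod 3`. `cop`: a prime factor of `Q` is an `l ∈ S` (`Nat.Coprime.prod_left` or `Nat.Coprime.symm`), and `l ∣ M - 2^s u^2` contradicts Ml. -/
def DAT_stmt : Prop := ∀ (i a t : ℕ) (r : ℕ → ZMod 2), 0 < t → (∀ n, r (n + t) = r n) →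
  (∃ n, n % 2 ^ i = a % 2 ^ i ∧ r n = 1) → ∃ (s Q m μ κ D : ℕ) (g h : ℕ → ZMod 2), Dat i a r s Q m μ κ D g h

/-! ### Primes -/

/-- **PAR** (short, 50 lines). Proof. `G(v) = ∑_{u < v} g u`; `G(v + D) = G(v) + G(D)` (periodicity), so `G(v + 2D) = G(v)` in `ZMod 2`. If `g x = 1` then `G(x + 1) = G(x) + 1`, so one of the two values is
`e`: `c = x` or `c = x + 1`. If `v = c mod 2D` then `G(v) = G(c)`. -/
def PAR_stmt : Prop := ∀ (D : ℕ) (g : ℕ → ZMod 2), 0 < D → (∀ u, g (u + D) = g u) → (∃ u, g u = 1) → ∀ e : ZMod 2,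
  ∃ c : ℕ, ∀ v : ℕ, v % (2 * D) = c % (2 * D) → ∑ u ∈ range v, g u = e

/-- **WAP** (short, 60 lines; from W1, W2, see SpecW). Primes in the windows `B (v-1)^2 ≤ M < B v^2`, `v = c mod D`. -/
def WAP_stmt : Prop := ∀ m μ B D c : ℕ, 0 < m → μ.Coprime m → 0 < B → 0 < D → ∃ c₀ : ℝ, 0 < c₀ ∧ ∃ x₀ : ℕ, ∀ x : ℕ, x₀ ≤ x →
  c₀ * x / Real.log x ≤ (#{M ∈ Ioc x (2 * x) | M.Prime ∧ M % m = μ % m ∧ (Nat.sqrt (M / B) + 1) % D = c % D} : ℝ)

/-- **FLP** (short, 60 lines; from PAR, WAP). Proof. For `u ∈ ℕ`: `2^s u^2 ≤ M` iff `u ≤ Nat.sqrt (M / 2^s)`, so (by `g0`) `∑_{u ∈ uB s M} g u = ∑_{u < v} g u`, `v = Nat.sqrt (M / 2^s) + 1`. For each `e` PAR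
gives a class `c` modulo `2 D`, WAP with `B = 2^s` the primes. Take the smaller constant, the larger `x₀` of the two `e`. -/
def FLP_stmt : Prop := ∀ (s m μ D : ℕ) (g : ℕ → ZMod 2), 0 < m → μ.Coprime m → 0 < D → (∀ u, g (u + D) = g u) →
  (∀ u, ¬ u.Coprime 6 → g u = 0) → (∃ u, g u = 1) → ∃ c₀ : ℝ, 0 < c₀ ∧ ∃ x₀ : ℕ, ∀ x : ℕ, x₀ ≤ x → ∀ e : ZMod 2,
  c₀ * x / Real.log x ≤ (#{M ∈ Pq m μ x | ∑ u ∈ uB s M, g u = e} : ℝ)

/-! ### The values -/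

/-- **KEY** (medium, 120 lines; uses IDB, `JN`; compare Pool/Agent/helper11/OD/EVO.lean, JP1, JP2). Every pair which is not exceptional and for which the two sums of `g` and `h` differ leads to an `n`
with `p(n) ≠ r(n)`. Proof. `M`, `p` are primes in the classes; `m` is divisible by `6` and `Q`, so both are prime to `6` and to `Q`, `p ≥ 5`, `k = Q p` is prime to `6`. IDB (`fil`, `k3`) at `M`. Left sum, `u ∈ uB s (M + k)`:
if `2^s u^2 > M` the argument is negative, JN: the term is `0` unless `M + k = 2^s u^2`, excluded. `2^s u^2 = M` is impossible (`M` odd). If `2^s u^2 < M` (i.e. `u ∈ uB s M`, `uB s M ⊆ uB s (M + k)`): the common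
divisors of `k = Q p` and `M - 2^s u^2` are `1` only (`cop`, `p` does not divide it), so the term is `ac (k (M - 2^s u^2)) = pp n` with `n` from `lft`. Right sum, `u ∈ uB s k`: `j = k - 2^s u^2 > 0` (`k` is
odd), `M ∤ j`, so the only common divisor of `j` and `M` is `1`: the term is `ac (j M) = pp n`, `n` from `rgt`. If all these `pp n` were `r n` then `∑ g + ∑ h = 0`. -/
def KEY_stmt : Prop := ∀ (i a : ℕ) (r : ℕ → ZMod 2) (s Q m μ κ D : ℕ) (g h : ℕ → ZMod 2), Dat i a r s Q m μ κ D g h →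
  ∀ M p : ℕ, M.Prime → p.Prime → M % m = μ % m → p % m = κ % m → ¬ Exc s Q M p →
  (∑ u ∈ uB s M, g u) + (∑ u ∈ uB s (Q * p), h u) ≠ 0 →
  ∃ n : ℕ, n % 2 ^ i = a % 2 ^ i ∧ pp n ≠ r n ∧ Rel s Q M p n

open Classical in
/-- **EXC** (medium, 100 lines: like Pool/Agent/helper8/OD/EXO.lean). The number of exceptional pairs. Proof. For each `p`: first type: `M = 2^s u^2 - Q p` and `u^2 ≤ M + Q p ≤ 4 Q y`: at most `Nat.sqrt (4 Q y) + 1` values. Second type: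
`0 < M - 2^s u^2 < 2y < 2p`, so it is `p`, `M = p + 2^s u^2`, `u^2 ≤ 2y`. Third type: `Q p - 2^s u^2 = M c`, `1 ≤ c < 2Q` (`Q p ≤ 2 Q y < 2 Q M`), `M = (Q p - 2^s u^2)/c`: at most `2Q (Nat.sqrt (4 Q y) + 1)`. -/
def EXC_stmt : Prop := ∀ s Q m μ κ y : ℕ, 1 ≤ Q →
  #{x ∈ Pq m μ y ×ˢ Pq m κ y | Exc s Q x.1 x.2} ≤ (2 * Q + 2) * (Nat.sqrt (4 * Q * y) + 1) * #(Pq m κ y)

open Classical in
/-- **MUL** (medium, 100 lines: like Pool/Agent/helper40/OD/FIB.lean). Multiplicity. Proof. `N = 24 n - 1 > 0` (otherwise the set is empty), `N ≤ Q (2y)(2y) = 4 Q y^2 < y^3`. First type: `p ∣ N`, `p > y` prime: at most two such `p` (three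
different ones give `y^3 < N`). For given `p` the number `M - 2^s u^2 = N/(Q p)` is fixed, `u ≤ Nat.sqrt (2 Q y)`, and `u` determines `M`. Second type: `M ∣ N`: at most two `M`; `Q p - 2^s u^2 = N/M`, `u ≤ Nat.sqrt (2 Q y)`, and `u` determines `p`. -/
def MUL_stmt : Prop := ∀ s Q m μ κ y n : ℕ, 1 ≤ Q → 4 * Q < y →
  #{x ∈ Pq m μ y ×ˢ Pq m κ y | Rel s Q x.1 x.2 n} ≤ 4 * (Nat.sqrt (2 * Q * y) + 1)

/-- **CNT** (short, 70 lines; from KEY, EXC, MUL: like Pool/Agent/helper83/OD/CNT.lean). Proof. A pair of the set on the left which is not exceptional leads (KEY) to an `n` with `24 n ≤ Q (2y)(2y) + 1`, so `n ≤ Q y^2`, counted by `sD`. -/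
def CNT_stmt : Prop := ∀ (i a : ℕ) (r : ℕ → ZMod 2) (s Q m μ κ D : ℕ) (g h : ℕ → ZMod 2), Dat i a r s Q m μ κ D g h →
  ∀ y : ℕ, 4 * Q < y →
  #{x ∈ Pq m μ y ×ˢ Pq m κ y | (∑ u ∈ uB s x.1, g u) + (∑ u ∈ uB s (Q * x.2), h u) ≠ 0} ≤
    4 * (Nat.sqrt (2 * Q * y) + 1) * sD i a r (Q * y ^ 2) + (2 * Q + 2) * (Nat.sqrt (4 * Q * y) + 1) * #(Pq m κ y)

/-- **FIN** (medium, 130 lines; from DAT, FLP, CNT: like Pool/Agent/helper12/OD/FIN.lean). Proof. DAT. For each `p ∈ Pq m κ y` let `e = 1 + ∑_{u ∈ uB s (Q p)} h u`; FLP: at least `c₀ y/log y` primes `M` with `∑ g = e`. So the set in CNT has at least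
`#(Pq m κ y) c₀ y/log y` elements. For large `y`: `(2Q+2)(√(4Qy) + 1) ≤ c₀ y/(2 log y)`, so `4 (√(2Qy) + 1) sD (Q y^2) ≥ #(Pq m κ y) c₀ y/(2 log y)`, and `#(Pq m κ y) ≥ c₁ y/log y`
(`Pool.Agent.helper7.OC.primes_ap m κ`, Pool/Agent/helper29/OC/PIAP.lean). So `sD (Q y^2) ≥ c₂ y^(3/2)/(log y)^2`. For large `X` take `y = Nat.sqrt (X / Q)`: `Q y^2 ≤ X`, `y ≥ c √X`, `log y ≤ log X`; `sD` is monotone in `X`. -/
def FIN_stmt : Prop := ∀ (i a t : ℕ) (r : ℕ → ZMod 2), 0 < t → (∀ n, r (n + t) = r n) →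
  (∃ n, n % 2 ^ i = a % 2 ^ i ∧ r n = 1) → ∃ c : ℝ, 0 < c ∧ ∃ X₀ : ℕ, ∀ X : ℕ, X₀ ≤ X →
  c * (X : ℝ) ^ (3 / 4 : ℝ) / Real.log X ^ 2 ≤ (sD i a r X : ℝ)

end Pool.Agent.TPC
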