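import Pool.Agent.helper67.TPC.Spec
import Pool.Agent.helper95.FJ.SpecE

/-!
# Project tpc, part W: primes in almost all windows

`cl x K i`, `i < K`, are the cells of `(x, 2x]` (Pool/Agent/helper95/FJ/SpecC.lean); their properties are the proved theorem
`Pool.Agent.FJ.GPT : GPT_stmt` (Pool/Agent/*/FJ/GPT.lean). `Pool.Agent.FJ.PSI_stmt` (the prime number theorem with characters in almost all cells) is
proved too (Pool/Agent/helper95/FJ/All.lean); use it only as a hypothesis.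
-/

set_option autoImplicit false

open Finset

noncomputable section

namespace Pool.Agent.TPC

open Pool.Agent.FJ (cl gp PSI_stmt GPT_stmt)

open Classical in
/-- **W1** (medium, 180 lines; from PSI, GPT). If a set `I` of cells has total size at least `δ x` then it contains the expected number of primes of the class `μ mod m`, up to a factor.
Proof. PSI with `η = 1/15`, `A = 4`, `Bq = 1`. Let `χ` be a Dirichlet character modulo `m`, `ψ` its primitive character (`DirichletCharacter.primitiveCharacter`, conductor `q ∣ m`, `q ≤ m ≤ log x`); `χ l = ψ l` for `l` prime to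
`m`, `χ l = 0` otherwise. `S(χ) = ∑_{i ∈ I} ∑_{l ∈ cl} Λ(l) χ(l)`. The `l ≤ 2x` not prime to `m` with `Λ(l) ≠ 0` are powers of the primes `ℓ ∣ m`: the sum of their `Λ` is at most `m log (2x)`. So by PSI and Cauchy-Schwarz
`|S(χ) - [q = 1] ∑_{i ∈ I} #cl| ≤ √K · (x^2/(K (log x)^4))^(1/2) + m log (2x) = x/(log x)^2 + m log (2x)`. Orthogonality (`DirichletCharacter.sum_char_inv_mul_char_eq`; exactly the principal character has `q = 1`):
`φ(m) ∑_{i ∈ I} ∑_{l ∈ cl, l = μ mod m} Λ(l) ≥ δ x - φ(m) (x/(log x)^2 + m log (2x))`. The proper prime powers contribute at most `C √x log x` (for instance at most `log_2 (2x) · √(2x)` of them, each `Λ ≤ log (2x)`), and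
`Λ(M) ≤ log (2x)` for primes. (`Λ` of an integer is `ArithmeticFunction.vonMangoldt l.toNat`; the `l` are positive by GPT; the cells are disjoint by GPT.) -/
def W1_stmt : Prop := ∀ m μ : ℕ, 0 < m → μ.Coprime m → ∀ δ : ℝ, 0 < δ → ∃ x₀ : ℕ, ∀ x : ℕ, x₀ ≤ x → ∀ K : ℕ, 1 ≤ K →
  (K : ℝ) ≤ (x : ℝ) ^ (3 / 5 : ℝ) → ∀ I ⊆ range K, δ * x ≤ ∑ i ∈ I, (#(cl x K i) : ℝ) →
  δ / (2 * m) * x / Real.log x ≤ (#{M ∈ Ioc x (2 * x) | M.Prime ∧ M % m = μ % m ∧ ∃ i ∈ I, (M : ℤ) ∈ cl x K i} : ℝ)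

/-- **W2** (medium, 150 lines; from GPT). Many cells lie in windows `B (v-1)^2 ≤ M < B v^2` with `v = c mod D` (`v = Nat.sqrt (M / B) + 1`).
Proof. `K = ⌈4 √x⌉ ≤ 5 √x ≤ x^(3/5)`. `y_i = x 2^(i/K)`, `y_(i+1) - y_i ≤ 2x/K ≤ √x/2` (`2^t ≤ 1 + t` for `0 ≤ t ≤ 1`). For `v = c mod D` with `x ≤ B (v-1)^2`, `B v^2 ≤ 2x` let `i = i(v)` be the smallest index with
`y_i ≥ B (v-1)^2 + 1` (`y_K = 2x`). `i ≥ 1`, `y_i < B (v-1)^2 + 1 + √x/2`, so `i < K` and `y_(i+1) < B (v-1)^2 + 1 + √x < B v^2` (`B (2v - 1) ≥ 2 √(B x) + B`). By GPT every `l` in the cell satisfies `y_i < l ≤ y_(i+1)`, so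
`B (v-1)^2 ≤ l < B v^2`. Different `v` give different `i`. The number of the `v` is at least `(√(2x/B) - √(x/B) - 2)/D - 1 ≥ √x/(3 B D)` for large `x`, and `#cl ≥ y_(i+1) - y_i - 1 ≥ x (log 2)/K - 1 ≥ √x/10`
(`2^t ≥ 1 + t log 2`). `I` = the set of the `i(v)`. -/
def W2_stmt : Prop := ∀ B D c : ℕ, 0 < B → 0 < D → ∃ δ : ℝ, 0 < δ ∧ ∃ x₀ : ℕ, ∀ x : ℕ, x₀ ≤ x → ∃ K : ℕ, 1 ≤ K ∧
  (K : ℝ) ≤ (x : ℝ) ^ (3 / 5 : ℝ) ∧ ∃ I ⊆ range K, δ * x ≤ ∑ i ∈ I, (#(cl x K i) : ℝ) ∧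
    ∀ i ∈ I, ∀ M : ℕ, (M : ℤ) ∈ cl x K i → (Nat.sqrt (M / B) + 1) % D = c % D

end Pool.Agent.TPC
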